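import Mathlib

/-!
# Shifted Douglas-Rachford iterates for two balls in `ℝ³` converge

For two closed balls the Douglas-Rachford iterates, shifted by the minimal displacement vector,
converge for every starting point.
-/

namespace Pool.Agent.Results.MP_ef197a_an.TwoBallsConvergence

open Set Metric Filter
open scoped Topology

/-- Euclidean three-space. -/
abbrev X := EuclideanSpace ℝ (Fin 3)

/-- The nearest-point projection onto `C` (a nearest point of `C`; it is unique if `C` is nonempty,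
closed and convex). -/
noncomputable def proj (C : Set X) (x : X) : X :=
  Classical.epsilon fun p => p ∈ C ∧ ∀ q ∈ C, dist x p ≤ dist x q

/-- The reflector. -/
noncomputable def refl (C : Set X) (x : X) : X := (2 : ℝ) • proj C x - x

/-- The Douglas-Rachford operator of the pair `(A, B)`. -/
noncomputable def DR (A B : Set X) (x : X) : X := (1 / 2 : ℝ) • (x + refl B (refl A x))

/-- `v` is an element of least norm in the closure of the range of `Id - T`. -/
def IsMinimalDisplacement (T : X → X) (v : X) : Prop :=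
  v ∈ closure (range fun x => x - T x) ∧ ∀ w ∈ closure (range fun x => x - T x), ‖v‖ ≤ ‖w‖

/-! ### Projections onto balls -/

lemma proj_eq_of {C : Set X} {y p : X} (hp : p ∈ C)
    (h : ∀ q ∈ C, (inner ℝ (y - p) (q - p) : ℝ) ≤ 0) : proj C y = p := by
  have hexp : ∀ q, ‖y - q‖ ^ 2 = ‖y - p‖ ^ 2 - 2 * inner ℝ (y - p) (q - p) + ‖q - p‖ ^ 2 := by
    intro q
    have : y - q = (y - p) - (q - p) := by abel
    rw [this, norm_sub_sq_real]
  have hnear : ∀ q ∈ C, dist y p ≤ dist y q := by
    intro q hq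
    rw [dist_eq_norm, dist_eq_norm]
    have h1 := hexp q
    have h2 := h q hq
    apply le_of_sq_le_sq _ (norm_nonneg _)
    nlinarith [sq_nonneg ‖q - p‖]
  have hex : ∃ p, p ∈ C ∧ ∀ q ∈ C, dist y p ≤ dist y q := ⟨p, hp, hnear⟩
  obtain ⟨h3, h4⟩ := Classical.epsilon_spec hex
  change proj C y ∈ C at h3
  change ∀ q ∈ C, dist y (proj C y) ≤ dist y q at h4
  have h5 := h4 p hp
  rw [dist_eq_norm, dist_eq_norm] at h5
  have h6 := hexp (proj C y)
  have h7 := h _ h3
  have h8 : ‖proj C y - p‖ ^ 2 ≤ 0 := by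
    have h9 : ‖y - proj C y‖ ^ 2 ≤ ‖y - p‖ ^ 2 := pow_le_pow_left₀ (norm_nonneg _) h5 2
    linarith
  have h10 : ‖proj C y - p‖ = 0 := by
    have := norm_nonneg (proj C y - p)
    nlinarith
  exact sub_eq_zero.mp (norm_eq_zero.mp h10)
where
  le_of_sq_le_sq {a b : ℝ} (h : a ^ 2 ≤ b ^ 2) (hb : 0 ≤ b) : a ≤ b := by
    have := sq_le_sq.mp h
    rw [abs_of_nonneg hb] at this
    exact le_of_abs_le this

/-- The contraction factor of the projection onto a ball. -/
noncomputable def fac (c : X) (ρ : ℝ) (y : X) : ℝ := if ‖y - c‖ ≤ ρ then 1 else ρ / ‖y - c‖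

lemma fac_mem {c : X} {ρ : ℝ} (hρ : 0 ≤ ρ) (y : X) : 0 ≤ fac c ρ y ∧ fac c ρ y ≤ 1 := by
  unfold fac
  split_ifs with h
  · exact ⟨zero_le_one, le_rfl⟩
  · push Not at h
    have h0 : 0 < ‖y - c‖ := lt_of_le_of_lt hρ h
    exact ⟨by positivity, (div_le_one h0).mpr h.le⟩

lemma ball_var {c : X} {ρ : ℝ} (hρ : 0 ≤ ρ) (y : X) :
    c + fac c ρ y • (y - c) ∈ closedBall c ρ ∧ ∀ q ∈ closedBall c ρ,
      (inner ℝ (y - (c + fac c ρ y • (y - c))) (q - (c + fac c ρ y • (y - c))) : ℝ) ≤ 0 := by
  unfold fac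
  split_ifs with h
  · have e : c + (1:ℝ) • (y - c) = y := by module
    rw [e]
    refine ⟨by rw [mem_closedBall, dist_eq_norm]; exact h, ?_⟩
    intro q _
    rw [sub_self, inner_zero_left]
  · push Not at h
    set d := ‖y - c‖ with hd
    have hd0 : 0 < d := lt_of_le_of_lt hρ h
    constructor
    · rw [mem_closedBall, dist_eq_norm, add_sub_cancel_left, norm_smul, ← hd,
        Real.norm_of_nonneg (by positivity), div_mul_cancel₀ _ hd0.ne']
    · intro q hq
      rw [mem_closedBall, dist_eq_norm] at hq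
      have e1 : y - (c + (ρ / d) • (y - c)) = (1 - ρ / d) • (y - c) := by module
      have e2 : q - (c + (ρ / d) • (y - c)) = (q - c) - (ρ / d) • (y - c) := by abel
      rw [e1, e2, inner_smul_left, inner_sub_right, inner_smul_right, real_inner_self_eq_norm_sq,
        ← hd]
      have h1 : 0 ≤ 1 - ρ / d := by
        have : ρ / d ≤ 1 := (div_le_one hd0).mpr h.le
        linarith
      have h2 : (inner ℝ (y - c) (q - c) : ℝ) ≤ d * ρ := by
        calc (inner ℝ (y - c) (q - c) : ℝ) ≤ ‖y - c‖ * ‖q - c‖ := real_inner_le_norm _ _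
          _ ≤ d * ρ := mul_le_mul_of_nonneg_left hq hd0.le
      have h3 : ρ / d * d ^ 2 = d * ρ := by field_simp
      simp only [conj_trivial]
      rw [h3]
      exact mul_nonpos_of_nonneg_of_nonpos h1 (by linarith)

lemma proj_ball {c : X} {ρ : ℝ} (hρ : 0 ≤ ρ) (y : X) :
    proj (closedBall c ρ) y = c + fac c ρ y • (y - c) :=
  proj_eq_of (ball_var hρ y).1 (ball_var hρ y).2

lemma proj_var {c : X} {ρ : ℝ} (hρ : 0 ≤ ρ) (y : X) :
    proj (closedBall c ρ) y ∈ closedBall c ρ ∧ ∀ q ∈ closedBall c ρ,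
      (inner ℝ (y - proj (closedBall c ρ) y) (q - proj (closedBall c ρ) y) : ℝ) ≤ 0 := by
  rw [proj_ball hρ]
  exact ball_var hρ y

lemma refl_nonexp {c : X} {ρ : ℝ} (hρ : 0 ≤ ρ) (x y : X) :
    ‖refl (closedBall c ρ) x - refl (closedBall c ρ) y‖ ≤ ‖x - y‖ := by
  obtain ⟨h1, h2⟩ := proj_var hρ x
  obtain ⟨h3, h4⟩ := proj_var hρ y
  set p := proj (closedBall c ρ) x with hp
  set q := proj (closedBall c ρ) y with hq
  have k1 := h2 q h3
  have k2 := h4 p h1
  have e : refl (closedBall c ρ) x - refl (closedBall c ρ) y = (2:ℝ) • (p - q) - (x - y) := by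
    unfold refl
    rw [← hp, ← hq]
    module
  rw [e]
  apply proj_eq_of.le_of_sq_le_sq _ (norm_nonneg _)
  rw [norm_sub_sq_real, norm_smul, inner_smul_left]
  simp only [conj_trivial]
  have k3 : (inner ℝ (p - q) (x - y) : ℝ) ≥ ‖p - q‖ ^ 2 := by
    have e1 : (inner ℝ (p - q) (x - y) : ℝ)
        = ‖p - q‖ ^ 2 - inner ℝ (x - p) (q - p) - inner ℝ (y - q) (p - q) := by
      rw [← real_inner_self_eq_norm_sq]
      simp only [inner_sub_left, inner_sub_right, real_inner_comm]
      ring
    rw [e1]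
    linarith
  have k4 : ‖(2:ℝ)‖ = 2 := by norm_num
  rw [k4]
  nlinarith

/-- Firm nonexpansiveness of the Douglas-Rachford operator. -/
lemma DR_firm {a b : X} {r s : ℝ} (hr : 0 ≤ r) (hs : 0 ≤ s) (x y : X) :
    ‖DR (closedBall a r) (closedBall b s) x - DR (closedBall a r) (closedBall b s) y‖ ^ 2
      + ‖(x - DR (closedBall a r) (closedBall b s) x)
        - (y - DR (closedBall a r) (closedBall b s) y)‖ ^ 2 ≤ ‖x - y‖ ^ 2 := by
  set N : X → X := fun z => refl (closedBall b s) (refl (closedBall a r) z) with hN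
  have hNn : ‖N x - N y‖ ≤ ‖x - y‖ := (refl_nonexp hs _ _).trans (refl_nonexp hr _ _)
  have hNn2 : ‖N x - N y‖ ^ 2 ≤ ‖x - y‖ ^ 2 := pow_le_pow_left₀ (norm_nonneg _) hNn 2
  have e1 : DR (closedBall a r) (closedBall b s) x - DR (closedBall a r) (closedBall b s) y
      = (1 / 2 : ℝ) • ((x - y) + (N x - N y)) := by
    simp only [DR, hN]
    module
  have e2 : (x - DR (closedBall a r) (closedBall b s) x)
        - (y - DR (closedBall a r) (closedBall b s) y)
      = (1 / 2 : ℝ) • ((x - y) - (N x - N y)) := by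
    simp only [DR, hN]
    module
  have n1 := norm_add_sq_real (x - y) (N x - N y)
  have n2 := norm_sub_sq_real (x - y) (N x - N y)
  rw [e1, e2, norm_smul, norm_smul, mul_pow, mul_pow, n1, n2]
  have k4 : ‖(1 / 2 : ℝ)‖ ^ 2 = 1 / 4 := by norm_num
  rw [k4]
  nlinarith

lemma DR_nonexp {a b : X} {r s : ℝ} (hr : 0 ≤ r) (hs : 0 ≤ s) (x y : X) :
    ‖DR (closedBall a r) (closedBall b s) x - DR (closedBall a r) (closedBall b s) y‖
      ≤ ‖x - y‖ := by
  have h := DR_firm (a := a) (b := b) hr hs x y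
  apply proj_eq_of.le_of_sq_le_sq _ (norm_nonneg _)
  nlinarith [sq_nonneg ‖(x - DR (closedBall a r) (closedBall b s) x)
        - (y - DR (closedBall a r) (closedBall b s) y)‖]

lemma sub_DR (A B : Set X) (x : X) : x - DR A B x = proj A x - proj B (refl A x) := by
  unfold DR refl
  module

/-! ### Intersecting balls -/

lemma proj_of_mem {c : X} {ρ : ℝ} {y : X} (hy : y ∈ closedBall c ρ) :
    proj (closedBall c ρ) y = y := by
  apply proj_eq_of hy
  intro q _
  rw [sub_self, inner_zero_left]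

lemma DR_fixed {a b : X} {r s : ℝ} {p : X} (h1 : p ∈ closedBall a r) (h2 : p ∈ closedBall b s) :
    DR (closedBall a r) (closedBall b s) p = p := by
  have e1 : refl (closedBall a r) p = p := by
    unfold refl
    rw [proj_of_mem h1]
    module
  unfold DR
  rw [e1]
  unfold refl
  rw [proj_of_mem h2]
  module

/-- Krasnoselskii-Mann for a firmly nonexpansive map with a fixed point. -/
lemma km (T : X → X) (hT : ∀ x y, ‖T x - T y‖ ^ 2 + ‖(x - T x) - (y - T y)‖ ^ 2 ≤ ‖x - y‖ ^ 2)
    (p : X) (hp : T p = p) (x : X) : ∃ L, Tendsto (fun n : ℕ => T^[n] x) atTop (𝓝 L) := by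
  have hne : ∀ x y, ‖T x - T y‖ ≤ ‖x - y‖ := by
    intro x y
    apply proj_eq_of.le_of_sq_le_sq _ (norm_nonneg _)
    nlinarith [hT x y, sq_nonneg ‖(x - T x) - (y - T y)‖]
  have hcont : Continuous T := by
    have : LipschitzWith 1 T := by
      apply LipschitzWith.of_dist_le_mul
      intro x y
      rw [dist_eq_norm, dist_eq_norm]
      simpa using hne x y
    exact this.continuous
  have hstep : ∀ n, T^[n + 1] x = T (T^[n] x) := fun n => Function.iterate_succ_apply' T n x
  have hfej : ∀ q, T q = q → ∀ n, ‖T^[n + 1] x - q‖ ≤ ‖T^[n] x - q‖ := by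
    intro q hq n
    rw [hstep]
    calc ‖T (T^[n] x) - q‖ = ‖T (T^[n] x) - T q‖ := by rw [hq]
      _ ≤ _ := hne _ _
  have hanti : ∀ q, T q = q → Antitone (fun n => ‖T^[n] x - q‖) :=
    fun q hq => antitone_nat_of_succ_le (hfej q hq)
  -- asymptotic regularity
  have hreg : ∀ n, ‖T^[n] x - T (T^[n] x)‖ ^ 2
      ≤ ‖T^[n] x - p‖ ^ 2 - ‖T^[n + 1] x - p‖ ^ 2 := by
    intro n
    have := hT (T^[n] x) p
    rw [hp, sub_self, sub_zero] at this
    rw [hstep]
    linarith
  have hlim : ∃ l, Tendsto (fun n => ‖T^[n] x - p‖) atTop (𝓝 l) :=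
    ⟨_, tendsto_atTop_ciInf (hanti p hp) ⟨0, by rintro _ ⟨n, rfl⟩; exact norm_nonneg _⟩⟩
  obtain ⟨l, hl⟩ := hlim
  have hreg0 : Tendsto (fun n => ‖T^[n] x - T (T^[n] x)‖ ^ 2) atTop (𝓝 0) := by
    have h1 : Tendsto (fun n => ‖T^[n] x - p‖ ^ 2 - ‖T^[n + 1] x - p‖ ^ 2) atTop
        (𝓝 (l ^ 2 - l ^ 2)) := (hl.pow 2).sub ((hl.comp (tendsto_add_atTop_nat 1)).pow 2)
    rw [sub_self] at h1
    exact squeeze_zero (fun n => sq_nonneg _) hreg h1
  have hreg1 : Tendsto (fun n => ‖T^[n] x - T (T^[n] x)‖) atTop (𝓝 0) := by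
    have := hreg0.sqrt
    simpa [Real.sqrt_sq (norm_nonneg _)] using this
  -- a cluster point
  have hbdd : ∀ n, T^[n] x ∈ closedBall p ‖x - p‖ := by
    intro n
    rw [mem_closedBall, dist_eq_norm]
    have h0 := hanti p hp (Nat.zero_le n)
    simp only [Function.iterate_zero, id_eq] at h0
    exact h0
  obtain ⟨L, _, φ, hφ, hL⟩ := (isCompact_closedBall p ‖x - p‖).tendsto_subseq hbdd
  have hLfix : T L = L := by
    have h1 : Tendsto (fun n => ‖T^[φ n] x - T (T^[φ n] x)‖) atTop (𝓝 ‖L - T L‖) :=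
      (hL.sub ((hcont.tendsto L).comp hL)).norm
    have h2 := tendsto_nhds_unique h1 (hreg1.comp hφ.tendsto_atTop)
    exact (sub_eq_zero.mp (norm_eq_zero.mp h2)).symm
  refine ⟨L, ?_⟩
  rw [tendsto_iff_norm_sub_tendsto_zero]
  have h3 : Tendsto (fun n => ‖T^[n] x - L‖) atTop (𝓝 (⨅ n, ‖T^[n] x - L‖)) :=
    tendsto_atTop_ciInf (hanti L hLfix) ⟨0, by rintro _ ⟨n, rfl⟩; exact norm_nonneg _⟩
  have h4 : Tendsto (fun n => ‖T^[φ n] x - L‖) atTop (𝓝 0) :=
    (tendsto_iff_norm_sub_tendsto_zero).mp hL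
  have h5 := tendsto_nhds_unique (h3.comp hφ.tendsto_atTop) h4
  rw [h5] at h3
  exact h3

/-! ### Disjoint balls -/

section disjoint

variable {a b : X} {r s : ℝ}

/-- Displacements in direction `-e` are at least the gap. -/
lemma gap_le {e : X} (he : ‖e‖ = 1) {p q : X} (hp : p ∈ closedBall a r) (hq : q ∈ closedBall b s)
    (hab : b - a = ‖b - a‖ • e) : ‖b - a‖ - r - s ≤ inner ℝ (p - q) (-e) := by
  rw [mem_closedBall, dist_eq_norm] at hp hq
  have h1 : (inner ℝ (p - a) e : ℝ) ≤ r := by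
    have := real_inner_le_norm (p - a) e
    rw [he, mul_one] at this
    linarith
  have h2 : -s ≤ (inner ℝ (q - b) e : ℝ) := by
    have := real_inner_le_norm (-(q - b)) e
    rw [he, mul_one, norm_neg, inner_neg_left] at this
    linarith
  have h3 : (inner ℝ (b - a) e : ℝ) = ‖b - a‖ := by
    conv_lhs => rw [hab]
    rw [inner_smul_left, real_inner_self_eq_norm_sq, he]
    simp
  have h4 : (inner ℝ (p - q) (-e) : ℝ)
      = inner ℝ (b - a) e + inner ℝ (q - b) e - inner ℝ (p - a) e := by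
    rw [inner_neg_right]
    simp only [inner_sub_left]
    ring
  rw [h4, h3]
  linarith

/-- The transversal factor. -/
lemma DR_transversal {e : X} (hr : 0 ≤ r) (hs : 0 ≤ s) (hab : b - a = ‖b - a‖ • e)
    (x : X) : ∃ κ ξ : ℝ, 0 ≤ κ ∧
      DR (closedBall a r) (closedBall b s) x - a = κ • (x - a) + ξ • e := by
  set α := fac a r x with hα
  have h1 := fac_mem hr x (c := a)
  set y := refl (closedBall a r) x with hy
  set β := fac b s y with hβ
  have h2 := fac_mem hs y (c := b)
  have e1 : proj (closedBall a r) x = a + α • (x - a) := proj_ball hr x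
  have e2 : proj (closedBall b s) y = b + β • (y - b) := proj_ball hs y
  have e3 : DR (closedBall a r) (closedBall b s) x
      = x - proj (closedBall a r) x + proj (closedBall b s) y := by
    have := sub_DR (closedBall a r) (closedBall b s) x
    rw [← hy] at this
    have h3 : DR (closedBall a r) (closedBall b s) x
        = x - (x - DR (closedBall a r) (closedBall b s) x) := by abel
    rw [h3, this]
    abel
  have e4 : y = (2:ℝ) • (a + α • (x - a)) - x := by
    rw [hy, refl, e1]
  refine ⟨(1 - α) * (1 - β) + α * β, (1 - β) * ‖b - a‖, ?_, ?_⟩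
  · have := mul_nonneg (sub_nonneg.mpr h1.2) (sub_nonneg.mpr h2.2)
    have := mul_nonneg h1.1 h2.1
    linarith
  · rw [e3, e1, e2, e4, mul_smul (1 - β), ← hab]
    module

/-- Fixed rays. -/
lemma DR_ray {e : X} (he : ‖e‖ = 1) (hr : 0 ≤ r) (hs : 0 ≤ s) (hab : b - a = ‖b - a‖ • e)
    (hdis : r + s < ‖b - a‖) (ξ : ℝ) (hξ : r ≤ ξ) :
    DR (closedBall a r) (closedBall b s) (a + ξ • e)
      = a + (ξ + (‖b - a‖ - r - s)) • e := by
  set D := ‖b - a‖ with hD
  have hb : b = a + D • e := by
    have : b = a + (b - a) := by abel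
    rw [this, hab]
  have h1 : proj (closedBall a r) (a + ξ • e) = a + r • e := by
    apply proj_eq_of
    · rw [mem_closedBall, dist_eq_norm, add_sub_cancel_left, norm_smul, he, mul_one,
        Real.norm_of_nonneg hr]
    · intro q hq
      rw [mem_closedBall, dist_eq_norm] at hq
      have e1 : a + ξ • e - (a + r • e) = (ξ - r) • e := by module
      have e2 : q - (a + r • e) = (q - a) - r • e := by abel
      rw [e1, e2, inner_smul_left, inner_sub_right, inner_smul_right, real_inner_self_eq_norm_sq,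
        he]
      have h3 := real_inner_le_norm e (q - a)
      rw [he, one_mul] at h3
      simp only [conj_trivial]
      apply mul_nonpos_of_nonneg_of_nonpos (by linarith)
      linarith
  have h2 : refl (closedBall a r) (a + ξ • e) = a + (2 * r - ξ) • e := by
    unfold refl
    rw [h1]
    module
  have h3 : proj (closedBall b s) (a + (2 * r - ξ) • e) = a + (D - s) • e := by
    apply proj_eq_of
    · rw [mem_closedBall, dist_eq_norm, hb]
      have e1 : a + (D - s) • e - (a + D • e) = (-s) • e := by module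
      rw [e1, norm_smul, he, mul_one, norm_neg, Real.norm_of_nonneg hs]
    · intro q hq
      rw [mem_closedBall, dist_eq_norm] at hq
      have e1 : a + (2 * r - ξ) • e - (a + (D - s) • e) = (2 * r - ξ - (D - s)) • e := by module
      have e2 : q - (a + (D - s) • e) = (q - b) + s • e := by
        rw [hb]; module
      rw [e1, e2, inner_smul_left, inner_add_right, inner_smul_right, real_inner_self_eq_norm_sq,
        he]
      have h3 := real_inner_le_norm (-e) (q - b)
      rw [norm_neg, he, one_mul, inner_neg_left] at h3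
      simp only [conj_trivial]
      apply mul_nonpos_of_nonpos_of_nonneg (by linarith)
      linarith
  have h4 := sub_DR (closedBall a r) (closedBall b s) (a + ξ • e)
  rw [h2, h1, h3] at h4
  have h5 : DR (closedBall a r) (closedBall b s) (a + ξ • e)
      = (a + ξ • e) - ((a + ξ • e) - DR (closedBall a r) (closedBall b s) (a + ξ • e)) := by abel
  rw [h5, h4]
  module

/-- Identification of the minimal displacement vector. -/
lemma min_disp {e : X} (he : ‖e‖ = 1) (hr : 0 ≤ r) (hs : 0 ≤ s) (hab : b - a = ‖b - a‖ • e)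
    (hdis : r + s < ‖b - a‖) :
    IsMinimalDisplacement (DR (closedBall a r) (closedBall b s)) ((‖b - a‖ - r - s) • (-e)) ∧
    ∀ v, IsMinimalDisplacement (DR (closedBall a r) (closedBall b s)) v →
      v = (‖b - a‖ - r - s) • (-e) := by
  set g := ‖b - a‖ - r - s with hg
  have hg0 : 0 < g := by rw [hg]; linarith
  set T := DR (closedBall a r) (closedBall b s) with hT
  have hrange : ∀ w ∈ range (fun x => x - T x), g ≤ inner ℝ w (-e) := by
    rintro _ ⟨x, rfl⟩
    simp only
    rw [hT, sub_DR]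
    exact gap_le he (proj_var hr x).1 (proj_var hs _).1 hab
  have hcl : ∀ w ∈ closure (range fun x => x - T x), g ≤ inner ℝ w (-e) := by
    intro w hw
    have h1 : closure (range fun x => x - T x) ⊆ {w | g ≤ inner ℝ w (-e)} :=
      closure_minimal hrange (isClosed_le continuous_const (by fun_prop))
    exact h1 hw
  have hnorm : ∀ w : X, (inner ℝ w (-e) : ℝ) ≤ ‖w‖ := by
    intro w
    have := real_inner_le_norm w (-e)
    rwa [norm_neg, he, mul_one] at this
  have hmem : g • (-e) ∈ closure (range fun x => x - T x) := by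
    apply subset_closure
    refine ⟨a + r • e, ?_⟩
    simp only
    rw [hT, DR_ray he hr hs hab hdis r le_rfl]
    rw [← hg]
    module
  have hgn : ‖g • (-e)‖ = g := by
    rw [norm_smul, norm_neg, he, mul_one, Real.norm_of_nonneg hg0.le]
  refine ⟨⟨hmem, ?_⟩, ?_⟩
  · intro w hw
    rw [hgn]
    exact (hcl w hw).trans (hnorm w)
  · rintro v ⟨hv1, hv2⟩
    have h1 := hv2 _ hmem
    rw [hgn] at h1
    have h2 := hcl v hv1
    have h3 : ‖v - g • (-e)‖ ^ 2 ≤ 0 := by
      rw [norm_sub_sq_real, inner_smul_right, hgn]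
      nlinarith [norm_nonneg v]
    have h4 : ‖v - g • (-e)‖ = 0 := by
      have := norm_nonneg (v - g • (-e))
      nlinarith
    exact sub_eq_zero.mp (norm_eq_zero.mp h4)

/-- Convergence for disjoint balls. -/
lemma disjoint_conv {e : X} (he : ‖e‖ = 1) (hr : 0 ≤ r) (hs : 0 ≤ s)
    (hab : b - a = ‖b - a‖ • e) (hdis : r + s < ‖b - a‖) (x : X) :
    ∃ L, Tendsto (fun n : ℕ => (DR (closedBall a r) (closedBall b s))^[n] x
      + (n : ℝ) • ((‖b - a‖ - r - s) • (-e))) atTop (𝓝 L) := by
  set g := ‖b - a‖ - r - s with hg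
  have hg0 : 0 < g := by rw [hg]; linarith
  set T := DR (closedBall a r) (closedBall b s) with hT
  have hstep : ∀ n, T^[n + 1] x = T (T^[n] x) := fun n => Function.iterate_succ_apply' T n x
  set z : ℕ → X := fun n => T^[n] x + (n : ℝ) • (g • (-e)) with hz
  -- the ray
  have hray : ∀ ξ : ℝ, r ≤ ξ → ∀ n : ℕ, T (a + (ξ + n * g) • e) = a + (ξ + (n + 1 : ℕ) * g) • e := by
    intro ξ hξ n
    have hn : (0:ℝ) ≤ n := Nat.cast_nonneg n
    rw [hT, DR_ray he hr hs hab hdis _ (by nlinarith), ← hg]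
    congr 2
    push_cast
    ring
  have hfej : ∀ ξ : ℝ, r ≤ ξ → Antitone (fun n => ‖z n - (a + ξ • e)‖) := by
    intro ξ hξ
    apply antitone_nat_of_succ_le
    intro n
    have e1 : ∀ n : ℕ, z n - (a + ξ • e) = T^[n] x - (a + (ξ + n * g) • e) := by
      intro n
      simp only [hz]
      module
    rw [e1, e1, hstep, ← hray ξ hξ n]
    exact DR_nonexp hr hs _ _
  have hconv : ∀ ξ : ℝ, r ≤ ξ → ∃ l, Tendsto (fun n => ‖z n - (a + ξ • e)‖ ^ 2) atTop (𝓝 l) := by
    intro ξ hξ
    have := tendsto_atTop_ciInf (hfej ξ hξ) ⟨0, by rintro _ ⟨n, rfl⟩; exact norm_nonneg _⟩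
    exact ⟨_, this.pow 2⟩
  -- axial coordinate
  set pcoord : ℕ → ℝ := fun n => inner ℝ (z n - a) e with hpc
  set w : ℕ → X := fun n => (z n - a) - pcoord n • e with hw
  have hwe : ∀ n, (inner ℝ (w n) e : ℝ) = 0 := by
    intro n
    simp only [hw, hpc]
    rw [inner_sub_left, inner_smul_left, real_inner_self_eq_norm_sq, he]
    simp
  have hsq : ∀ ξ n, ‖z n - (a + ξ • e)‖ ^ 2 = (pcoord n - ξ) ^ 2 + ‖w n‖ ^ 2 := by
    intro ξ n
    have e1 : z n - (a + ξ • e) = w n + (pcoord n - ξ) • e := by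
      simp only [hw]
      module
    rw [e1, norm_add_sq_real, inner_smul_right, hwe, norm_smul, he, mul_one, Real.norm_eq_abs,
      sq_abs]
    ring
  obtain ⟨l1, hl1⟩ := hconv r le_rfl
  obtain ⟨l2, hl2⟩ := hconv (r + 1) (by linarith)
  have hp : ∃ lp, Tendsto pcoord atTop (𝓝 lp) := by
    refine ⟨(l1 - l2 + (r + 1) ^ 2 - r ^ 2) / 2, ?_⟩
    have h1 : Tendsto (fun n => (‖z n - (a + r • e)‖ ^ 2 - ‖z n - (a + (r + 1) • e)‖ ^ 2
        + (r + 1) ^ 2 - r ^ 2) / 2) atTop (𝓝 ((l1 - l2 + (r + 1) ^ 2 - r ^ 2) / 2)) :=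
      ((((hl1.sub hl2).add_const _).sub_const _).div_const _)
    refine h1.congr (fun n => ?_)
    rw [hsq, hsq]
    ring
  obtain ⟨lp, hlp⟩ := hp
  have hwn : ∃ lw, Tendsto (fun n => ‖w n‖) atTop (𝓝 lw) := by
    have h1 : Tendsto (fun n => ‖z n - (a + r • e)‖ ^ 2 - (pcoord n - r) ^ 2) atTop
        (𝓝 (l1 - (lp - r) ^ 2)) := hl1.sub ((hlp.sub_const r).pow 2)
    refine ⟨Real.sqrt (l1 - (lp - r) ^ 2), ?_⟩
    refine h1.sqrt.congr (fun n => ?_)
    rw [hsq]
    have : (pcoord n - r) ^ 2 + ‖w n‖ ^ 2 - (pcoord n - r) ^ 2 = ‖w n‖ ^ 2 := by ring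
    rw [this, Real.sqrt_sq (norm_nonneg _)]
  obtain ⟨lw, hlw⟩ := hwn
  -- transversal parts are nonnegative multiples of the first one
  have hmult : ∀ n, ∃ κ : ℝ, 0 ≤ κ ∧ w n = κ • w 0 := by
    intro n
    induction n with
    | zero => exact ⟨1, zero_le_one, by rw [one_smul]⟩
    | succ n ih =>
      obtain ⟨κ, hκ, hκw⟩ := ih
      obtain ⟨μ, ξ, hμ, hμξ⟩ := DR_transversal (e := e) hr hs hab (T^[n] x)
      refine ⟨μ * κ, mul_nonneg hμ hκ, ?_⟩
      have e1 : z (n + 1) - a = μ • (z n - a)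
          + (ξ + (μ * n * g - (n + 1 : ℕ) * g)) • e := by
        have h1 : z (n + 1) - a = (T (T^[n] x) - a) + ((n + 1 : ℕ) : ℝ) • (g • (-e)) := by
          simp only [hz]
          rw [hstep]
          abel
        rw [h1, hμξ]
        simp only [hz]
        module
      have e2 : pcoord (n + 1) = μ * pcoord n + (ξ + (μ * n * g - (n + 1 : ℕ) * g)) := by
        simp only [hpc]
        rw [e1, inner_add_left, inner_smul_left, inner_smul_left, real_inner_self_eq_norm_sq, he]
        simp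
      have e3 : w (n + 1) = μ • w n := by
        simp only [hw]
        rw [e1, e2]
        module
      rw [e3, hκw, smul_smul]
  have hwlim : ∃ W, Tendsto w atTop (𝓝 W) := by
    by_cases h0 : w 0 = 0
    · refine ⟨0, ?_⟩
      have : w = fun _ => (0 : X) := by
        funext n
        obtain ⟨κ, _, h⟩ := hmult n
        rw [h, h0, smul_zero]
      rw [this]
      exact tendsto_const_nhds
    · have hn0 : 0 < ‖w 0‖ := norm_pos_iff.mpr h0
      refine ⟨lw • ((‖w 0‖)⁻¹ • w 0), ?_⟩
      have h1 : Tendsto (fun n => ‖w n‖ • ((‖w 0‖)⁻¹ • w 0)) atTop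
          (𝓝 (lw • ((‖w 0‖)⁻¹ • w 0))) := hlw.smul_const _
      refine h1.congr (fun n => ?_)
      obtain ⟨κ, hκ, h⟩ := hmult n
      rw [h, norm_smul, Real.norm_of_nonneg hκ, smul_smul, mul_assoc, mul_inv_cancel₀ hn0.ne',
        mul_one]
  obtain ⟨W, hW⟩ := hwlim
  refine ⟨a + (lp • e + W), ?_⟩
  have h1 : Tendsto (fun n => a + (pcoord n • e + w n)) atTop (𝓝 (a + (lp • e + W))) :=
    ((hlp.smul_const e).add hW).const_add a
  refine h1.congr (fun n => ?_)
  simp only [hw]
  abel

end disjoint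

/-- **For all closed balls `A`, `B` in `ℝ³`, the minimal displacement vector `v` of the
Douglas-Rachford operator `T` exists uniquely, and `T^n x + n v` converges for every `x`.** -/
theorem result (a b : X) (r s : ℝ) (hr : 0 ≤ r) (hs : 0 ≤ s) :
    (∃! v, IsMinimalDisplacement (DR (closedBall a r) (closedBall b s)) v) ∧
    ∀ v, IsMinimalDisplacement (DR (closedBall a r) (closedBall b s)) v → ∀ x : X,
      ∃ L, Tendsto (fun n : ℕ => (DR (closedBall a r) (closedBall b s))^[n] x + (n : ℝ) • v)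
        atTop (𝓝 L) := by
  rcases lt_or_ge (r + s) ‖b - a‖ with hdis | hint
  · -- disjoint balls
    have hD : 0 < ‖b - a‖ := by linarith
    set e : X := (‖b - a‖)⁻¹ • (b - a) with he
    have hen : ‖e‖ = 1 := by
      rw [he, norm_smul, norm_inv, norm_norm, inv_mul_cancel₀ hD.ne']
    have hab : b - a = ‖b - a‖ • e := by
      rw [he, smul_smul, mul_inv_cancel₀ hD.ne', one_smul]
    obtain ⟨h1, h2⟩ := min_disp hen hr hs hab hdis
    refine ⟨⟨_, h1, h2⟩, ?_⟩
    intro v hv x
    rw [h2 v hv]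
    exact disjoint_conv hen hr hs hab hdis x
  · -- intersecting balls
    obtain ⟨p, hpa, hpb⟩ : ∃ p, p ∈ closedBall a r ∧ p ∈ closedBall b s := by
      by_cases hrs : r + s = 0
      · have hr0 : r = 0 := by linarith
        have hs0 : s = 0 := by linarith
        have hab : b = a := by
          rw [hrs] at hint
          exact sub_eq_zero.mp (norm_eq_zero.mp (le_antisymm hint (norm_nonneg _)))
        refine ⟨a, mem_closedBall_self hr, ?_⟩
        rw [hab]
        exact mem_closedBall_self hs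
      · have hrs0 : 0 < r + s := lt_of_le_of_ne (by linarith) (Ne.symm hrs)
        refine ⟨a + (r / (r + s)) • (b - a), ?_, ?_⟩
        · rw [mem_closedBall, dist_eq_norm, add_sub_cancel_left, norm_smul,
            Real.norm_of_nonneg (by positivity), div_mul_eq_mul_div, div_le_iff₀ hrs0]
          exact mul_le_mul_of_nonneg_left hint hr
        · rw [mem_closedBall, dist_eq_norm]
          have e1 : a + (r / (r + s)) • (b - a) - b = (-(s / (r + s))) • (b - a) := by
            have : r / (r + s) = 1 - s / (r + s) := by field_simp; ring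
            rw [this]
            module
          rw [e1, norm_smul, norm_neg, Real.norm_of_nonneg (by positivity), div_mul_eq_mul_div,
            div_le_iff₀ hrs0]
          exact mul_le_mul_of_nonneg_left hint hs
    have hfix := DR_fixed hpa hpb
    have hzero : (0 : X) ∈ closure (range fun x => x - DR (closedBall a r) (closedBall b s) x) := by
      apply subset_closure
      exact ⟨p, by simp only; rw [hfix, sub_self]⟩
    have huniq : ∀ v, IsMinimalDisplacement (DR (closedBall a r) (closedBall b s)) v → v = 0 := by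
      rintro v ⟨_, hv⟩
      have := hv 0 hzero
      rw [norm_zero] at this
      exact norm_eq_zero.mp (le_antisymm this (norm_nonneg _))
    refine ⟨⟨0, ⟨hzero, fun w _ => by rw [norm_zero]; exact norm_nonneg w⟩, huniq⟩, ?_⟩
    intro v hv x
    rw [huniq v hv]
    obtain ⟨L, hL⟩ := km (DR (closedBall a r) (closedBall b s)) (DR_firm hr hs) p hfix x
    exact ⟨L, by simpa using hL⟩

end Pool.Agent.Results.MP_ef197a_an.TwoBallsConvergence
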